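import Pool.Agent.W2helper5.KA.Stm

set_option autoImplicit false

namespace Pool.Agent.W2helper71.KA

open Pool.Agent.W2helper5.KA

variable {k F Γ : Type} [Field k] [Group F] [Group Γ] (D : Dat k F Γ)

theorem P_succ (p : Γ × F) (n : ℕ) : P D p (n + 1) = U D (P D p n) := by
  unfold P
  rw [Function.iterate_succ_apply']

theorem P_succ_snd (p : Γ × F) (n : ℕ) :
    (P D p (n + 1)).2 = D.l (P D p n).1 (P D p n).2 := by
  rw [P_succ]; rfl

theorem r_back (p : Γ × F) (n : ℕ) :
    D.r (P D p (n + 1)).1 (P D p (n + 1)).2 = (P D p n).1 := by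
  rw [P_succ]
  show D.r (D.r (P D p n).1 (D.l (P D p n).1 (P D p n).2)⁻¹) (D.l (P D p n).1 (P D p n).2) = _
  rw [← D.r_mul, inv_mul_cancel, D.r_one]

theorem l_T (p : Γ × F) (n : ℕ) : D.l (T D p n) p.2 = (P D p n).2 := by
  induction n with
  | zero => exact D.l_one _
  | succ n ih =>
    rw [P_succ_snd]
    show D.l ((P D p n).1 * T D p n) p.2 = _
    rw [D.l_mul, ih]

/-- product of the second components with index shifted by one -/
def Y (p : Γ × F) : ℕ → F
  | 0 => 1
  | n + 1 => (P D p (n + 1)).2 * Y p n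

theorem x_X (p : Γ × F) (n : ℕ) : (P D p n).2 * X D p n = Y D p n * p.2 := by
  induction n with
  | zero => show p.2 * 1 = 1 * p.2; simp
  | succ n ih =>
    show (P D p (n + 1)).2 * ((P D p n).2 * X D p n) = (P D p (n + 1)).2 * Y D p n * p.2
    rw [ih, mul_assoc]

section grp

variable {G : Type} [Group G] (i : F →* G) (j : Γ →* G)

/-- the loop element -/
def gam (p : Γ × F) : G := (i (D.l p.1 p.2))⁻¹ * j p.1

theorem gam_eq (hc : ∀ s x, j s * i x = i (D.l s x) * j (D.r s x)) (p : Γ × F) :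
    gam D i j p = j (D.r p.1 p.2) * (i p.2)⁻¹ := by
  unfold gam
  rw [inv_mul_eq_iff_eq_mul, ← mul_assoc, ← hc, mul_inv_cancel_right]

theorem gam_succ (hc : ∀ s x, j s * i x = i (D.l s x) * j (D.r s x)) (p : Γ × F) (n : ℕ) :
    gam D i j (P D p (n + 1)) =
      i (P D p (n + 1)).2 * gam D i j (P D p n) * (i (P D p (n + 1)).2)⁻¹ := by
  rw [gam_eq D i j hc, r_back]
  unfold gam
  rw [P_succ_snd, mul_inv_cancel_left]

theorem gam_Y (hc : ∀ s x, j s * i x = i (D.l s x) * j (D.r s x)) (p : Γ × F) (n : ℕ) :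
    gam D i j (P D p n) = i (Y D p n) * gam D i j p * (i (Y D p n))⁻¹ := by
  induction n with
  | zero => show gam D i j p = i 1 * gam D i j p * (i 1)⁻¹; simp
  | succ n ih =>
    rw [gam_succ D i j hc, ih]
    show _ = i ((P D p (n + 1)).2 * Y D p n) * gam D i j p * (i ((P D p (n + 1)).2 * Y D p n))⁻¹
    rw [map_mul]
    group

theorem j_T (hc : ∀ s x, j s * i x = i (D.l s x) * j (D.r s x)) (p : Γ × F) (n : ℕ) :
    j (T D p n) = i (Y D p n) * gam D i j p ^ n := by
  induction n with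
  | zero => show j 1 = i 1 * gam D i j p ^ 0; simp
  | succ n ih =>
    show j ((P D p n).1 * T D p n) = i ((P D p (n + 1)).2 * Y D p n) * gam D i j p ^ (n + 1)
    have h1 : j (P D p n).1 = i (P D p (n + 1)).2 * gam D i j (P D p n) := by
      unfold gam
      rw [P_succ_snd, mul_inv_cancel_left]
    rw [map_mul, h1, ih, gam_Y D i j hc, map_mul, pow_succ']
    group

end grp

theorem LOOP : P_LOOP := by
  intro hG hO k F Γ _ _ _ _ _ D p
  obtain ⟨G, _, _, i, j, hi, hj, hd, ht, hc, hcard⟩ := hG k F Γ D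
  refine ⟨orderOf (gam D i j p), orderOf_pos _, ?_, ?_⟩
  · rw [← hcard]
    exact orderOf_dvd_natCard _
  set N := orderOf (gam D i j p) with hN
  have h1 : j (T D p N) = i (Y D p N) := by
    rw [j_T D i j hc, hN, pow_orderOf_eq_one, mul_one]
  obtain ⟨hY, hT⟩ := ht _ _ h1.symm
  have hx : (P D p N).2 = p.2 := by
    rw [← l_T, hT, D.l_one]
  have hX : X D p N = 1 := by
    have h2 := x_X D p N
    rw [hx, hY, one_mul] at h2
    exact mul_eq_left.mp h2
  have hP1 : (P D p N).1 = p.1 := by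
    have h3 := gam_Y D i j hc p N
    rw [hY, map_one, inv_one, mul_one, one_mul, gam_eq D i j hc, gam_eq D i j hc, hx] at h3
    have h4 : D.r (P D p N).1 p.2 = D.r p.1 p.2 := hj (mul_right_cancel h3)
    have h5 : ∀ s, D.r (D.r s p.2) (p.2)⁻¹ = s := by
      intro s
      rw [← D.r_mul, mul_inv_cancel, D.r_one]
    rw [← h5 (P D p N).1, h4, h5]
  refine ⟨hT, hX, Prod.ext hP1 hx, ?_⟩
  intro q a hq hqa
  have hcF : Nat.card i.range = Fintype.card F := by
    rw [← Nat.card_eq_fintype_card]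
    exact (Nat.card_congr (MonoidHom.ofInjective hi).toEquiv).symm
  have hcG : Nat.card j.range = Fintype.card Γ := by
    rw [← Nat.card_eq_fintype_card]
    exact (Nat.card_congr (MonoidHom.ofInjective hj).toEquiv).symm
  rw [← hcF, ← hcG]
  refine hO G i.range j.range ?_ ?_ (gam D i j p) q a hq hqa
  · intro g
    obtain ⟨x, s, h⟩ := hd g
    exact ⟨i x, ⟨x, rfl⟩, j s, ⟨s, rfl⟩, h⟩
  · rw [eq_bot_iff]
    rintro g ⟨⟨x, hx'⟩, ⟨s, hs'⟩⟩
    have := ht x s (hx'.trans hs'.symm)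
    rw [Subgroup.mem_bot, ← hx', this.1, map_one]

end Pool.Agent.W2helper71.KA
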